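import Pool.Agent.MStress.MAIN

/-!
# MP_9a3074_an, Q1: a point of maximal stress is never a farthest boundary point
-/

open Complex Metric Set Filter Topology
open scoped ComplexConjugate Gradient
open MStress

namespace Pool.Agent.Results.MP_9a3074_an.NotFarthest

/-- **Answer to Q1.** For a bounded convex planar domain which is symmetric in both coordinate axes and
has different half-axes, no point of maximal stress of the torsion function is a farthest boundary
point. -/
theorem result (Ω : Set ℂ) (hΩ : AxDomain Ω) (hab : halfX Ω ≠ halfY Ω) (u : ℂ → ℝ)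
    (hu : Torsion Ω u) (p : ℂ) (hp : IsMaxStress Ω u p) : ¬ IsFarthest Ω p := by
  intro hfar
  obtain ⟨z, hz, m, M, hm0, hmM, h1, h2⟩ := MStress.main hΩ hab hu hfar
  have ha : stress Ω u p ≤ ENNReal.ofReal m := by
    refine limsup_le_of_le (by isBoundedDefault) ?_
    filter_upwards [h1] with y hy
    rw [← ofReal_norm]
    exact ENNReal.ofReal_le_ofReal hy
  have hb : ENNReal.ofReal M ≤ stress Ω u z := by
    refine le_limsup_of_frequently_le (h2.mono fun y hy => ?_) (by isBoundedDefault)
    rw [← ofReal_norm]
    exact ENNReal.ofReal_le_ofReal hy.le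
  have hc := (hb.trans (hp.2 z hz)).trans ha
  rw [ENNReal.ofReal_le_ofReal_iff hm0] at hc
  linarith

end Pool.Agent.Results.MP_9a3074_an.NotFarthest
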